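import Pool.Agent.Y143.WeilNum

/-!
# Weil numbers and rational polynomials
-/

set_option autoImplicit false

namespace Pool.Agent.N184.HP

open Module Polynomial Pool.Agent.Y143

universe u

variable {Ω : Type u} [Field Ω] [CharZero Ω] {q : ℕ}

lemma exists_conj {α : Ω} (h : IsAlgebraic ℚ α) : ∃ z : ℂ, aeval z (minpoly ℚ α) = 0 := by
  have h1 : (minpoly ℚ α).degree ≠ 0 := (minpoly.degree_pos h.isIntegral).ne'
  exact IsAlgClosed.exists_aeval_eq_zero ℂ _ h1

/-- The weight of a Weil number is unique. -/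
lemma weight_unique (hq : 1 < q) {w w' : ℤ} {α : Ω} (h : IsWeilNumber q w α)
    (h' : IsWeilNumber q w' α) : w = w' := by
  obtain ⟨z, hz⟩ := exists_conj h.1
  have h1 := h.2 z hz
  rw [h'.2 z hz] at h1
  have hq' : (1 : ℝ) < q := by exact_mod_cast hq
  have h2 := (Real.rpow_right_inj (by linarith) hq'.ne').1 h1
  have h3 : (w' : ℝ) = w := by linarith
  exact_mod_cast h3.symm

lemma weil_ne_zero' (hq : 1 < q) {w : ℤ} {α : Ω} (h : IsWeilNumber q w α) : α ≠ 0 := by
  rintro rfl
  obtain ⟨z, hz⟩ := exists_conj h.1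
  have h1 := h.2 z hz
  rw [minpoly.zero, aeval_X] at hz
  rw [hz, norm_zero] at h1
  have hq' : (0 : ℝ) < q := by exact_mod_cast (by omega : 0 < q)
  exact absurd h1 (Real.rpow_pos_of_pos hq' _).ne

/-- `q ^ w / α` is conjugate to the Weil number `α` of weight `w`. -/
lemma minpoly_dual (hq : 1 < q) {w : ℕ} {α : Ω} (h : IsWeilNumber q w α) :
    minpoly ℚ ((q : Ω) ^ w / α) = minpoly ℚ α := by
  let E := IntermediateField.adjoin ℚ {α}
  have hint : IsIntegral ℚ α := h.1.isIntegral
  obtain ⟨z, hz⟩ := exists_conj h.1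
  have hzroot : z ∈ (minpoly ℚ α).aroots ℂ := by
    rw [mem_aroots]
    exact ⟨minpoly.ne_zero hint, hz⟩
  let ψ : E →ₐ[ℚ] ℂ := (IntermediateField.algHomAdjoinIntegralEquiv ℚ hint).symm ⟨z, hzroot⟩
  have hψ : ψ (IntermediateField.AdjoinSimple.gen ℚ α) = z :=
    IntermediateField.algHomAdjoinIntegralEquiv_symm_apply_gen ℚ hint ⟨z, hzroot⟩
  set g : E := IntermediateField.AdjoinSimple.gen ℚ α with hg
  have hnorm : z * (starRingEnd ℂ) z = (q : ℂ) ^ w := by
    rw [Complex.mul_conj, Complex.normSq_eq_norm_sq, h.2 z hz]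
    have hq0 : (0 : ℝ) ≤ q := Nat.cast_nonneg q
    have h1 : ((q : ℝ) ^ (((w : ℤ) : ℝ) / 2)) ^ 2 = (q : ℝ) ^ w := by
      rw [← Real.rpow_natCast, ← Real.rpow_mul hq0, ← Real.rpow_natCast]
      congr 1
      push_cast
      ring
    rw [h1]
    push_cast
    rfl
  have hz0 : z ≠ 0 := by
    rintro rfl
    rw [zero_mul] at hnorm
    have : (q : ℂ) ≠ 0 := by exact_mod_cast (by omega : q ≠ 0)
    exact pow_ne_zero w this hnorm.symm
  have hψ2 : ψ ((q : E) ^ w / g) = (starRingEnd ℂ) z := by
    rw [map_div₀, map_pow, map_natCast, hψ, ← hnorm, mul_div_cancel_left₀ _ hz0]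
  have hroot : aeval ((starRingEnd ℂ) z) (minpoly ℚ α) = 0 := by
    have h1 : aeval ((starRingEnd ℂ) z) (minpoly ℚ α) =
        (starRingEnd ℂ) (aeval z (minpoly ℚ α)) := by
      have h2 := aeval_algHom_apply (Complex.conjAe.toAlgHom.restrictScalars ℚ) z (minpoly ℚ α)
      exact h2
    rw [h1, hz, map_zero]
  have hE : aeval ((q : E) ^ w / g) (minpoly ℚ α) = 0 := by
    apply ψ.toRingHom.injective
    show ψ _ = ψ 0
    rw [map_zero, ← aeval_algHom_apply, hψ2, hroot]
  have hΩ : aeval ((q : Ω) ^ w / α) (minpoly ℚ α) = 0 := by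
    have h1 := congrArg (algebraMap E Ω) hE
    rw [map_zero, ← aeval_algebraMap_apply, map_div₀, map_pow, map_natCast] at h1
    exact h1
  exact (minpoly.eq_of_irreducible_of_monic (minpoly.irreducible hint) hΩ
    (minpoly.monic hint)).symm

/-- Conjugate numbers are roots of a rational polynomial with the same multiplicities. -/
lemma rootMultiplicity_conj {α β : Ω} (hα : IsIntegral ℚ α) (hβ : IsIntegral ℚ β)
    (h : minpoly ℚ α = minpoly ℚ β) (P : Polynomial ℚ) :
    (P.map (algebraMap ℚ Ω)).rootMultiplicity α = (P.map (algebraMap ℚ Ω)).rootMultiplicity β := by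
  induction hn : P.natDegree using Nat.strong_induction_on generalizing P with
  | _ n ih =>
    by_cases hP : P = 0
    · rw [hP, Polynomial.map_zero, rootMultiplicity_zero, rootMultiplicity_zero]
    by_cases hd : minpoly ℚ α ∣ P
    · obtain ⟨Q, rfl⟩ := hd
      have hQ : Q ≠ 0 := right_ne_zero_of_mul hP
      have hm : minpoly ℚ α ≠ 0 := left_ne_zero_of_mul hP
      have h0 : (minpoly ℚ α).map (algebraMap ℚ Ω) * Q.map (algebraMap ℚ Ω) ≠ 0 := by
        rw [← Polynomial.map_mul]
        exact (Polynomial.map_ne_zero_iff (algebraMap ℚ Ω).injective).2 hP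
      have hdeg : Q.natDegree < n := by
        rw [← hn, natDegree_mul hm hQ]
        have := minpoly.natDegree_pos hα
        omega
      rw [Polynomial.map_mul, rootMultiplicity_mul h0, rootMultiplicity_mul h0,
        ih _ hdeg Q rfl]
      congr 1
      have hsep : (minpoly ℚ α).Separable := (minpoly.irreducible hα).separable
      have one : ∀ γ : Ω, minpoly ℚ α = minpoly ℚ γ →
          ((minpoly ℚ α).map (algebraMap ℚ Ω)).rootMultiplicity γ = 1 := by
        intro γ hγ
        have hm' : (minpoly ℚ α).map (algebraMap ℚ Ω) ≠ 0 :=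
          (Polynomial.map_ne_zero_iff (algebraMap ℚ Ω).injective).2 hm
        have h1 := rootMultiplicity_le_one_of_separable
          (hsep.map (f := algebraMap ℚ Ω)) γ
        have h2 : 0 < ((minpoly ℚ α).map (algebraMap ℚ Ω)).rootMultiplicity γ := by
          rw [rootMultiplicity_pos hm', IsRoot.def, eval_map_algebraMap, hγ]
          exact minpoly.aeval ℚ γ
        omega
      rw [one α rfl, one β h]
    · have key : ∀ γ : Ω, minpoly ℚ α = minpoly ℚ γ →
          (P.map (algebraMap ℚ Ω)).rootMultiplicity γ = 0 := by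
        intro γ hγ
        apply rootMultiplicity_eq_zero
        intro hc
        rw [IsRoot.def, eval_map_algebraMap] at hc
        exact hd (hγ ▸ minpoly.dvd ℚ γ hc)
      rw [key α rfl, key β h]

end Pool.Agent.N184.HP
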