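import Mathlib

/-!
# Sums of generalized eigenspaces
-/

set_option autoImplicit false

namespace Pool.Agent.N184.HP

open Module Polynomial

section

variable {Ω : Type*} [Field Ω] {V : Type*} [AddCommGroup V] [Module Ω V]

/-- The sum of the generalized eigenspaces for the eigenvalues in `S`. -/
def eig (Φ : Module.End Ω V) (S : Set Ω) : Submodule Ω V := ⨆ α ∈ S, Φ.maxGenEigenspace α

lemma eig_le {Φ : Module.End Ω V} {S : Set Ω} {P : Submodule Ω V}
    (h : ∀ α ∈ S, ∀ x ∈ Φ.maxGenEigenspace α, x ∈ P) : eig Φ S ≤ P :=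
  iSup₂_le fun α hα x hx => h α hα x hx

lemma le_eig {Φ : Module.End Ω V} {S : Set Ω} {α : Ω} (hα : α ∈ S) :
    Φ.maxGenEigenspace α ≤ eig Φ S := le_iSup₂_of_le α hα le_rfl

lemma eig_mono {Φ : Module.End Ω V} {S S' : Set Ω} (h : S ⊆ S') : eig Φ S ≤ eig Φ S' :=
  eig_le fun _ hα _ hx => le_eig (h hα) hx

lemma eig_disjoint {Φ : Module.End Ω V} {S S' : Set Ω} (h : Disjoint S S') :
    Disjoint (eig Φ S) (eig Φ S') :=
  (Φ.independent_maxGenEigenspace).disjoint_biSup_biSup h

lemma eig_sup {Φ : Module.End Ω V} (S S' : Set Ω) : eig Φ S ⊔ eig Φ S' = eig Φ (S ∪ S') := by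
  unfold eig
  rw [iSup_union]

variable [IsAlgClosed Ω] [FiniteDimensional Ω V]

lemma eig_univ (Φ : Module.End Ω V) : eig Φ Set.univ = ⊤ := by
  unfold eig
  simp only [Set.mem_univ, iSup_pos]
  exact Φ.iSup_maxGenEigenspace_eq_top

omit [IsAlgClosed Ω] in
lemma finrank_sup_of_disjoint {A B : Submodule Ω V} (h : Disjoint A B) :
    finrank Ω (A ⊔ B : Submodule Ω V) = finrank Ω A + finrank Ω B := by
  have := Submodule.finrank_sup_add_finrank_inf_eq A B
  rw [h.eq_bot, finrank_bot] at this
  omega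

omit [IsAlgClosed Ω] in
open Classical in
lemma finrank_eig_finset (Φ : Module.End Ω V) (s : Finset Ω) :
    finrank Ω (eig Φ (s : Set Ω)) = ∑ α ∈ s, Φ.charpoly.rootMultiplicity α := by
  induction s using Finset.induction_on with
  | empty =>
    have : eig Φ ((∅ : Finset Ω) : Set Ω) = ⊥ := by
      unfold eig
      simp
    rw [this, finrank_bot, Finset.sum_empty]
  | insert a s ha ih =>
    have h1 : eig Φ ((insert a s : Finset Ω) : Set Ω) = eig Φ {a} ⊔ eig Φ (s : Set Ω) := by
      rw [eig_sup, Finset.coe_insert]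
      rfl
    have h2 : eig Φ {a} = Φ.maxGenEigenspace a := by
      unfold eig
      simp
    rw [h1, finrank_sup_of_disjoint (eig_disjoint (by simpa using ha)), ih,
      Finset.sum_insert ha, h2, LinearMap.finrank_maxGenEigenspace_eq]

omit [IsAlgClosed Ω] in
lemma maxGen_eq_bot {Φ : Module.End Ω V} {α : Ω} (h : α ∉ Φ.charpoly.roots) :
    Φ.maxGenEigenspace α = ⊥ := by
  classical
  rw [← Submodule.finrank_eq_zero (R := Ω), LinearMap.finrank_maxGenEigenspace_eq, ← count_roots,
    Multiset.count_eq_zero]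
  exact h

omit [IsAlgClosed Ω] in
open Classical in
/-- The dimension of a sum of generalized eigenspaces is the number of the eigenvalues, counted with
multiplicities. -/
lemma finrank_eig (Φ : Module.End Ω V) (S : Set Ω) :
    finrank Ω (eig Φ S) = (Φ.charpoly.roots.filter (· ∈ S)).card := by
  have h1 : eig Φ S = eig Φ ((Φ.charpoly.roots.filter (· ∈ S)).toFinset : Set Ω) := by
    apply le_antisymm
    · apply eig_le
      intro α hα x hx
      by_cases h : α ∈ Φ.charpoly.roots
      · refine le_eig ?_ hx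
        simp only [Finset.mem_coe, Multiset.mem_toFinset, Multiset.mem_filter]
        exact ⟨h, hα⟩
      · rw [maxGen_eq_bot h, Submodule.mem_bot] at hx
        rw [hx]
        exact zero_mem _
    · apply eig_mono
      intro α hα
      simp only [Finset.mem_coe, Multiset.mem_toFinset, Multiset.mem_filter] at hα
      exact hα.2
  rw [h1, finrank_eig_finset, ← Multiset.toFinset_sum_count_eq]
  refine Finset.sum_congr rfl fun α hα => ?_
  rw [Multiset.mem_toFinset, Multiset.mem_filter] at hα
  rw [Multiset.count_filter_of_pos hα.2, count_roots]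

omit [IsAlgClosed Ω] in
lemma mem_roots_of_mem {Φ : Module.End Ω V} {α : Ω} {x : V} (hx : x ∈ Φ.maxGenEigenspace α)
    (h0 : x ≠ 0) : α ∈ Φ.charpoly.roots := by
  by_contra hc
  rw [maxGen_eq_bot hc, Submodule.mem_bot] at hx
  exact h0 hx

omit [IsAlgClosed Ω] in
/-- The eigenvalues on a quotient of a sum of generalized eigenspaces. -/
lemma eigen_of_eig {Φ : Module.End Ω V} {S : Set Ω} {v : V} (hv : v ∈ eig Φ S)
    {B : Submodule Ω V} (hB : ∀ x ∈ B, Φ x ∈ B) (hvB : v ∉ B) {α : Ω} (h : Φ v - α • v ∈ B) :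
    α ∈ S := by
  by_contra hα
  have key : ∃ g : Polynomial Ω, g.eval α ≠ 0 ∧ aeval Φ g v = 0 := by
    unfold eig at hv
    refine Submodule.iSup_induction' (p := fun β => ⨆ (_ : β ∈ S), Φ.maxGenEigenspace β)
      (motive := fun v _ => ∃ g : Polynomial Ω, g.eval α ≠ 0 ∧ aeval Φ g v = 0) ?_ ?_ ?_ hv
    · intro β x hx
      by_cases hβ : β ∈ S
      · rw [iSup_pos hβ, Module.End.mem_maxGenEigenspace] at hx
        obtain ⟨k, hk⟩ := hx
        refine ⟨(X - C β) ^ k, ?_, ?_⟩
        · rw [eval_pow, eval_sub, eval_X, eval_C]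
          exact pow_ne_zero _ (sub_ne_zero.2 fun h => hα (h ▸ hβ))
        · rw [map_pow, map_sub, aeval_X, aeval_C]
          exact hk
      · rw [iSup_neg hβ, Submodule.mem_bot] at hx
        exact ⟨1, by simp, by simp [hx]⟩
    · exact ⟨1, by simp, by simp⟩
    · rintro x y _ _ ⟨g, hg, hgx⟩ ⟨g', hg', hgy⟩
      refine ⟨g * g', by rw [eval_mul]; exact mul_ne_zero hg hg', ?_⟩
      have e1 : aeval Φ (g * g') x = 0 := by
        rw [mul_comm, map_mul, Module.End.mul_apply, hgx, map_zero]
      have e2 : aeval Φ (g * g') y = 0 := by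
        rw [map_mul, Module.End.mul_apply, hgy, map_zero]
      rw [map_add, e1, e2, add_zero]
  obtain ⟨g, hg, hgv⟩ := key
  have h2 : ∀ g : Polynomial Ω, aeval Φ g v - g.eval α • v ∈ B := by
    intro g
    have hBg : ∀ (g : Polynomial Ω) (x : V), x ∈ B → aeval Φ g x ∈ B := by
      intro g x hx
      induction g using Polynomial.induction_on with
      | C a =>
        rw [aeval_C]
        exact B.smul_mem a hx
      | add p r hp hr =>
        rw [map_add]
        exact B.add_mem hp hr
      | monomial n a ih =>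
        rw [pow_succ', ← mul_assoc, mul_comm (C a), mul_assoc, map_mul, aeval_X]
        exact hB _ ih
    obtain ⟨r, hr⟩ : X - C α ∣ g - C (g.eval α) := dvd_iff_isRoot.2 (by simp)
    have h3 : aeval Φ g v - g.eval α • v = aeval Φ (g - C (g.eval α)) v := by
      rw [map_sub, aeval_C]
      rfl
    rw [h3, hr, mul_comm, map_mul, Module.End.mul_apply]
    apply hBg
    rw [map_sub, aeval_X, aeval_C]
    exact h
  have h3 := h2 g
  rw [hgv, zero_sub, Submodule.neg_mem_iff, Submodule.smul_mem_iff _ hg] at h3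
  exact hvB h3

end

end Pool.Agent.N184.HP
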