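import Pool.Agent.N184.HP.Wt
import Pool.Agent.N184.WM.DetVal

/-!
# The monodromy polygon lies above the weight polygon, which lies above the Hodge polygon
-/

set_option autoImplicit false
set_option linter.unusedSectionVars false
set_option linter.unusedVariables false

namespace Pool.Agent.N184.HP

universe u v

open Module Polynomial Pool.Agent.Y143 Pool.Agent.N184.WM

/-! ### Counting -/

lemma count_le (n : ℕ) (T : ℤ) (w : ℕ) :
    ((∑ i ∈ Finset.range n, if (w : ℤ) < T - i then 1 else 0 : ℕ) : ℝ) ≤ max ((T : ℝ) - w) 0 := by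
  rw [Finset.sum_boole]
  have h1 : ((Finset.range n).filter fun i : ℕ => (w : ℤ) < T - i) ⊆
      Finset.range (T - w).toNat := by
    intro i hi
    rw [Finset.mem_filter] at hi
    rw [Finset.mem_range]
    omega
  have h2 := Finset.card_le_card h1
  rw [Finset.card_range] at h2
  have h3 : (((T - w).toNat : ℤ) : ℝ) = max ((T : ℝ) - w) 0 := by
    rw [Int.toNat_eq_max]
    push_cast
    rfl
  calc ((((Finset.range n).filter fun i : ℕ => (w : ℤ) < T - i).card : ℕ) : ℝ)
      ≤ (((T - w).toNat : ℕ) : ℝ) := by exact_mod_cast h2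
    _ = max ((T : ℝ) - w) 0 := by rw [← h3]; norm_cast

open Classical in
lemma count_multiset {Ω : Type*} (f : Ω → ℕ) (n : ℕ) (T : ℤ) (s : Multiset Ω) :
    ((∑ i ∈ Finset.range n, (s.filter fun α => (f α : ℤ) < T - i).card : ℕ) : ℝ) ≤
      (s.map fun α => max ((T : ℝ) - f α) 0).sum := by
  induction s using Multiset.induction_on with
  | empty => simp
  | cons a s ih =>
    have h1 : ∀ i : ℕ, ((a ::ₘ s).filter fun α => (f α : ℤ) < T - i).card =
        (if (f a : ℤ) < T - i then 1 else 0) + (s.filter fun α => (f α : ℤ) < T - i).card := by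
      intro i
      by_cases h : (f a : ℤ) < T - i
      · rw [Multiset.filter_cons_of_pos (p := fun α => (f α : ℤ) < T - i) s h, Multiset.card_cons,
          if_pos h, add_comm]
      · rw [Multiset.filter_cons_of_neg (p := fun α => (f α : ℤ) < T - i) s h, if_neg h, zero_add]
    rw [Finset.sum_congr rfl fun i _ => h1 i, Finset.sum_add_distrib, Multiset.map_cons,
      Multiset.sum_cons, Nat.cast_add]
    exact add_le_add (count_le n T (f a)) ih

lemma sum_max_eq (h : ℕ → ℕ) {t n : ℕ} (htn : t ≤ n) :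
    ∑ i ∈ Finset.range n, max ((t : ℝ) - i) 0 * h i = ∑ i ∈ Finset.range t, ((t : ℝ) - i) * h i := by
  rw [← Finset.sum_subset (Finset.range_subset_range.2 htn)]
  · refine Finset.sum_congr rfl fun i hi => ?_
    rw [Finset.mem_range] at hi
    have : (i : ℝ) ≤ t := by exact_mod_cast hi.le
    rw [max_eq_left (by linarith)]
  · intro i _ hi
    rw [Finset.mem_range, not_lt] at hi
    have : (t : ℝ) ≤ i := by exact_mod_cast hi
    rw [max_eq_right (by linarith), zero_mul]

lemma hodgeSum_real (h : ℕ → ℕ) (T : ℕ) :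
    (hodgeSum h T : ℝ) = ∑ i ∈ Finset.range T, max ((T : ℝ) - 2 * i) 0 * h i := by
  unfold hodgeSum
  push_cast
  refine Finset.sum_congr rfl fun i _ => ?_
  congr 1
  rcases le_total (2 * i) T with h1 | h1
  · have h2 : (2 : ℝ) * i ≤ T := by exact_mod_cast h1
    rw [max_eq_left (by linarith), Nat.cast_sub h1]
    push_cast
    rfl
  · have h2 : (T : ℝ) ≤ 2 * i := by exact_mod_cast h1
    rw [max_eq_right (by linarith), Nat.sub_eq_zero_of_le h1, Nat.cast_zero]

section

variable {Ω : Type u} [Field Ω] [CharZero Ω] {V : Type v} [AddCommGroup V] [Module Ω V]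
  [FiniteDimensional Ω V] {q m : ℕ} {Φ N : Module.End Ω V} {B : V →ₗ[Ω] V →ₗ[Ω] Ω}

lemma multiset_sum_le {s : Multiset Ω} {f g : Ω → ℝ} (h : ∀ x ∈ s, f x ≤ g x) :
    (s.map f).sum ≤ (s.map g).sum := Multiset.sum_map_le_sum_map f g h

/-- The Newton polygon lies above the Hodge polygon. -/
lemma newton_le_hodge {val : Ω → ℝ} {h : ℕ → ℕ} (hNH : NewtonAboveHodge val Φ h) (T : ℕ) :
    ((eigenvalues Φ).map fun α => max ((T : ℝ) - 2 * val α) 0).sum ≤ hodgeSum h T := by
  rw [hodgeSum_real]
  obtain ⟨t, rfl | rfl⟩ : ∃ t : ℕ, T = 2 * t ∨ T = 2 * t + 1 := ⟨T / 2, by omega⟩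
  · have h1 := hNH t
    rw [← sum_max_eq h (show t ≤ 2 * t by omega)] at h1
    have e1 : ((eigenvalues Φ).map fun α => max (((2 * t : ℕ) : ℝ) - 2 * val α) 0) =
        (eigenvalues Φ).map fun α => 2 * max ((t : ℝ) - val α) 0 := by
      refine Multiset.map_congr rfl fun α _ => ?_
      rw [mul_max_of_nonneg _ _ (by norm_num : (0 : ℝ) ≤ 2)]
      push_cast
      ring_nf
    rw [e1, Multiset.sum_map_mul_left]
    have e2 : ∑ i ∈ Finset.range (2 * t), max (((2 * t : ℕ) : ℝ) - 2 * i) 0 * h i =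
        2 * ∑ i ∈ Finset.range (2 * t), max ((t : ℝ) - i) 0 * h i := by
      rw [Finset.mul_sum]
      refine Finset.sum_congr rfl fun i _ => ?_
      rw [← mul_assoc, mul_max_of_nonneg _ _ (by norm_num : (0 : ℝ) ≤ 2)]
      push_cast
      ring_nf
    rw [e2]
    linarith
  · have h1 := hNH t
    have h2 := hNH (t + 1)
    rw [← sum_max_eq h (show t ≤ 2 * t + 1 by omega)] at h1
    rw [← sum_max_eq h (show t + 1 ≤ 2 * t + 1 by omega)] at h2
    have h3 : ((eigenvalues Φ).map fun α => max (((2 * t + 1 : ℕ) : ℝ) - 2 * val α) 0).sum ≤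
        ((eigenvalues Φ).map fun α => max ((t : ℝ) - val α) 0 +
          max (((t + 1 : ℕ) : ℝ) - val α) 0).sum := by
      apply multiset_sum_le
      intro α _
      push_cast
      rcases max_cases ((t : ℝ) - val α) 0 with ⟨h, _⟩ | ⟨h, _⟩ <;>
        rcases max_cases ((t : ℝ) + 1 - val α) 0 with ⟨h', _⟩ | ⟨h', _⟩ <;>
        rcases max_cases (2 * (t : ℝ) + 1 - 2 * val α) 0 with ⟨h'', _⟩ | ⟨h'', _⟩ <;>
        rw [h, h', h''] <;> linarith
    rw [Multiset.sum_map_add] at h3
    have e2 : ∑ i ∈ Finset.range (2 * t + 1), max (((2 * t + 1 : ℕ) : ℝ) - 2 * i) 0 * h i =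
        ∑ i ∈ Finset.range (2 * t + 1), max ((t : ℝ) - i) 0 * h i +
          ∑ i ∈ Finset.range (2 * t + 1), max (((t + 1 : ℕ) : ℝ) - i) 0 * h i := by
      rw [← Finset.sum_add_distrib]
      refine Finset.sum_congr rfl fun i _ => ?_
      rw [← add_mul]
      congr 1
      push_cast
      rcases Nat.lt_or_ge t i with hi | hi
      · have hi' : (t : ℝ) + 1 ≤ i := by exact_mod_cast hi
        rw [max_eq_right (by linarith), max_eq_right (by linarith), max_eq_right (by linarith),
          add_zero]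
      · have hi' : (i : ℝ) ≤ t := by exact_mod_cast hi
        rw [max_eq_left (by linarith), max_eq_left (by linarith), max_eq_left (by linarith)]
        ring
    rw [e2]
    linarith

/-- The dual eigenvalue. -/
noncomputable def du (q : ℕ) (α : Ω) : Ω := (q : Ω) ^ wf q α / α

variable [IsAlgClosed Ω]

lemma du_facts (hq : 1 < q) (H : IsCohomology q m Φ N B) (hP : HasRationalPoly Φ) {α : Ω}
    (hα : α ∈ Φ.charpoly.roots) :
    du q α ∈ Φ.charpoly.roots ∧ Φ.charpoly.rootMultiplicity (du q α) =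
      Φ.charpoly.rootMultiplicity α ∧ wf q (du q α) = wf q α ∧ du q (du q α) = α := by
  classical
  have hw := root_weil H hα
  have hα0 := weil_ne_zero' hq hw
  have hqΩ : (q : Ω) ≠ 0 := Nat.cast_ne_zero.2 (by omega)
  have h1 : minpoly ℚ (du q α) = minpoly ℚ α := minpoly_dual hq hw
  obtain ⟨P, hP⟩ := hP
  have h2 : IsIntegral ℚ (du q α) := by
    apply IsAlgebraic.isIntegral
    unfold du
    exact ((isAlgebraic_algebraMap (A := Ω) (q : ℚ)).pow _ |>.mul hw.1.inv) |> fun h => by
      rw [div_eq_mul_inv]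
      simpa using h
  have h3 : Φ.charpoly.rootMultiplicity (du q α) = Φ.charpoly.rootMultiplicity α := by
    rw [← hP]
    exact rootMultiplicity_conj h2 hw.1.isIntegral h1 P
  have h4 : du q α ∈ Φ.charpoly.roots := by
    rw [← Multiset.count_pos, count_roots, h3, ← count_roots, Multiset.count_pos]
    exact hα
  have h5 : wf q (du q α) = wf q α := by
    have h6 := root_weil H h4
    have h7 : IsWeilNumber q (wf q α) (du q α) := by
      have h8 := hw.inv.twist (by omega : q ≠ 0) (wf q α : ℤ)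
      rw [zpow_natCast, show -((wf q α : ℕ) : ℤ) + 2 * (wf q α : ℤ) = wf q α by ring,
        ← div_eq_mul_inv] at h8
      exact h8
    exact_mod_cast weight_unique hq h6 h7
  refine ⟨h4, h3, h5, ?_⟩
  show (q : Ω) ^ wf q (du q α) / du q α = α
  rw [h5]
  unfold du
  rw [div_div_cancel₀ (pow_ne_zero _ hqΩ)]

/-- The eigenvalues are stable under duality. -/
lemma sum_du (hq : 1 < q) (H : IsCohomology q m Φ N B) (hP : HasRationalPoly Φ) (f : Ω → ℝ) :
    ((eigenvalues Φ).map fun α => f (du q α)).sum = ((eigenvalues Φ).map f).sum := by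
  classical
  unfold eigenvalues
  rw [Finset.sum_multiset_map_count, Finset.sum_multiset_map_count]
  refine Finset.sum_bij' (fun α _ => du q α) (fun α _ => du q α) ?_ ?_ ?_ ?_ ?_
  · intro α hα
    rw [Multiset.mem_toFinset] at hα ⊢
    exact (du_facts hq H hP hα).1
  · intro α hα
    rw [Multiset.mem_toFinset] at hα ⊢
    exact (du_facts hq H hP hα).1
  · intro α hα
    rw [Multiset.mem_toFinset] at hα
    exact (du_facts hq H hP hα).2.2.2
  · intro α hα
    rw [Multiset.mem_toFinset] at hα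
    exact (du_facts hq H hP hα).2.2.2
  · intro α hα
    rw [Multiset.mem_toFinset] at hα
    rw [count_roots, count_roots, (du_facts hq H hP hα).2.1]

/-- The weight polygon lies above the Newton polygon. -/
lemma weight_le_newton (hq : 1 < q) (H : IsCohomology q m Φ N B) (hP : HasRationalPoly Φ)
    {R : ValuationSubring Ω} {val : Ω → ℝ} (hv : IsValFor q R val) (T : ℕ) :
    ((eigenvalues Φ).map fun α => max ((T : ℝ) - wf q α) 0).sum ≤
      ((eigenvalues Φ).map fun α => max ((T : ℝ) - 2 * val α) 0).sum := by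
  have h1 := sum_du hq H hP (fun α => max ((T : ℝ) - 2 * val α) 0)
  have h2 : ((eigenvalues Φ).map fun α => 2 * max ((T : ℝ) - wf q α) 0).sum ≤
      ((eigenvalues Φ).map fun α => max ((T : ℝ) - 2 * val α) 0 +
        max ((T : ℝ) - 2 * val (du q α)) 0).sum := by
    apply multiset_sum_le
    intro α hα
    have hw := root_weil H hα
    have hα0 := weil_ne_zero' hq hw
    have hqΩ : (q : Ω) ≠ 0 := Nat.cast_ne_zero.2 (by omega)
    have h3 : val (du q α) = wf q α - val α := by
      unfold du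
      rw [div_eq_mul_inv, hv.mul _ _ (pow_ne_zero _ hqΩ) (inv_ne_zero hα0), hv.pow hqΩ, hv.norm,
        hv.inv hα0]
      ring
    rw [h3]
    rcases max_cases ((T : ℝ) - wf q α) 0 with ⟨h, _⟩ | ⟨h, _⟩ <;> rw [h]
    · have a1 := le_max_left ((T : ℝ) - 2 * val α) 0
      have a2 := le_max_left ((T : ℝ) - 2 * (wf q α - val α)) 0
      linarith
    · have a1 := le_max_right ((T : ℝ) - 2 * val α) 0
      have a2 := le_max_right ((T : ℝ) - 2 * (wf q α - val α)) 0
      linarith
  rw [Multiset.sum_map_add, Multiset.sum_map_mul_left, h1] at h2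
  linarith

open Classical in
lemma finrank_lo (c : ℤ) :
    finrank Ω (lo q Φ c) = ((eigenvalues Φ).filter fun α => (wf q α : ℤ) < c).card := by
  have h1 := finrank_eig Φ {α : Ω | (wf q α : ℤ) < c}
  unfold lo eigenvalues
  rw [h1]
  congr

/-- The rank of `N ^ b` is bounded by the numbers of eigenvalues of small weight. -/
lemma rank_le (hq : 1 < q) (H : IsCohomology q m Φ N B) (b : ℕ) :
    rankPow N b ≤ finrank Ω (lo q Φ (m - b + 1)) + finrank Ω (lo q Φ ((m : ℤ) - b)) := by
  have h1 := (rank_bound hq H b (m + b)).1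
  rw [finrank_hi hq H, show 2 * (m : ℤ) - (m + b) + 1 = m - b + 1 by ring,
    show (m : ℤ) + b - 2 * b = m - b by ring] at h1
  exact h1

lemma sum_rank_le (hq : 1 < q) (H : IsCohomology q m Φ N B) (a n : ℕ) :
    ∑ j ∈ Finset.range n, (finrank Ω (lo q Φ ((m : ℤ) - (a + 1 + 2 * j : ℕ) + 1)) +
      finrank Ω (lo q Φ ((m : ℤ) - (a + 1 + 2 * j : ℕ)))) =
      ∑ i ∈ Finset.range (2 * n), finrank Ω (lo q Φ ((m : ℤ) - a - i)) := by
  induction n with
  | zero => simp
  | succ n ih =>
    rw [Finset.sum_range_succ, ih, show 2 * (n + 1) = 2 * n + 1 + 1 by ring,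
      Finset.sum_range_succ, Finset.sum_range_succ,
      show (m : ℤ) - (a + 1 + 2 * n : ℕ) + 1 = (m : ℤ) - a - (2 * n : ℕ) by push_cast; ring,
      show (m : ℤ) - (a + 1 + 2 * n : ℕ) = (m : ℤ) - a - (2 * n + 1 : ℕ) by push_cast; ring]
    exact (add_assoc _ _ _).symm

/-- The monodromy polygon lies above the weight polygon. -/
lemma monodromy_le_weight (hq : 1 < q) (H : IsCohomology q m Φ N B) (a n : ℕ) (ha : a ≤ m) :
    ((∑ j ∈ Finset.range n, (finrank Ω (lo q Φ ((m : ℤ) - (a + 1 + 2 * j : ℕ) + 1)) +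
      finrank Ω (lo q Φ ((m : ℤ) - (a + 1 + 2 * j : ℕ)))) : ℕ) : ℝ) ≤
      ((eigenvalues Φ).map fun α => max (((m - a : ℕ) : ℝ) - wf q α) 0).sum := by
  classical
  rw [sum_rank_le hq H]
  have h1 := count_multiset (wf q) (2 * n) ((m : ℤ) - a) (eigenvalues Φ)
  have h2 : (((m : ℤ) - a : ℤ) : ℝ) = ((m - a : ℕ) : ℝ) := by
    rw [Nat.cast_sub ha]
    push_cast
    rfl
  rw [h2] at h1
  refine le_trans (le_of_eq ?_) h1
  congr 1
  refine Finset.sum_congr rfl fun i _ => ?_
  rw [finrank_lo]

end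

end Pool.Agent.N184.HP
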