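import Pool.Agent.N184.WM.SlopeDefs
import Mathlib.LinearAlgebra.Eigenspace.Charpoly

/-!
# Monodromy, weights and Hodge numbers: definitions
-/

set_option autoImplicit false

namespace Pool.Agent.N184.HP

universe u v

open Module Pool.Agent.Y143 Pool.Agent.N184.WM

section

variable {Ω : Type u} [Field Ω] [CharZero Ω] {V : Type v} [AddCommGroup V] [Module Ω V]

/-- The known properties of `V = H^m(X_{\bar K}, Ω)` for `X` projective and semistable over `O` (or
smooth projective over `K`, after a finite extension of `K`), with `Φ` the action of a geometric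
Frobenius element, `N` the logarithm of the monodromy and `B(x, y) = ∫ x ∪ y ∪ L^(n - m)` the form given
by Poincare duality and the hard Lefschetz theorem (for `m > n` the same via the isomorphism with
`H^(2 n - m)`): `N Φ = q Φ N`, `B` is nondegenerate and `B(Φ x, Φ y) = q^m B(x, y)`, and each
eigenvalue of `Φ` is a `q`-Weil number of some weight `w ≥ 0`. -/
structure IsCohomology (q m : ℕ) (Φ N : Module.End Ω V) (B : V →ₗ[Ω] V →ₗ[Ω] Ω) : Prop where
  twisted : IsTwisted q Φ N
  nondeg : ∀ x, (∀ y, B x y = 0) → x = 0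
  pair : ∀ x y, B (Φ x) (Φ y) = (q : Ω) ^ m * B x y
  weil : ∀ (α : Ω) (x : V), x ≠ 0 → Φ x = α • x → ∃ w : ℕ, IsWeilNumber q w α

variable [FiniteDimensional Ω V]

/-- The eigenvalues of `Φ`, with multiplicities. -/
noncomputable def eigenvalues (Φ : Module.End Ω V) : Multiset Ω := Φ.charpoly.roots

/-- The characteristic polynomial of `Φ` has rational coefficients. -/
def HasRationalPoly (Φ : Module.End Ω V) : Prop :=
  ∃ P : Polynomial ℚ, P.map (algebraMap ℚ Ω) = Φ.charpoly

/-- The Newton polygon of `Φ` for the valuation `val` lies above the Hodge polygon with `h i` sides of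
slope `i`: for every natural number `t` the sum of `t - val α` over the eigenvalues `α` with
`val α < t` is at most `∑_{i < t} (t - i) h i`, the same sum for the Hodge slopes. (This says that
the Newton polygon lies above the supporting line of slope `t` of the Hodge polygon.) -/
def NewtonAboveHodge (val : Ω → ℝ) (Φ : Module.End Ω V) (h : ℕ → ℕ) : Prop :=
  ∀ t : ℕ, ((eigenvalues Φ).map fun α => max ((t : ℝ) - val α) 0).sum ≤
    ∑ i ∈ Finset.range t, ((t : ℝ) - i) * h i

end

section

variable {Ω : Type u} [Field Ω] {V : Type v} [AddCommGroup V] [Module Ω V]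

/-- The sum of the ranks of `N ^ (a + 1)`, `N ^ (a + 3)`, `N ^ (a + 5)`, ... (on `H^m`, where
`N ^ (m + 1) = 0`). -/
noncomputable def monodromySum (N : Module.End Ω V) (m a : ℕ) : ℕ :=
  ∑ j ∈ Finset.range m, rankPow N (a + 1 + 2 * j)

/-- The graded pieces `gr_s = M_s / M_(s - 1)` of the monodromy filtration are zero for all `s` with
`s ≡ a` modulo `2`; that is, `N` has no Jordan block of length `≡ a + 1` modulo `2`. -/
def NoPiece (N : Module.End Ω V) (a : ℕ) : Prop :=
  ∀ M : ℤ → Submodule Ω V, IsMonodromyFiltration N M → ∀ s : ℤ, 2 ∣ s - a → M s ≤ M (s - 1)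

/-- The sum of `(T - 2 i) h i` over all `i` with `2 i < T`. -/
def hodgeSum (h : ℕ → ℕ) (T : ℕ) : ℕ := ∑ i ∈ Finset.range T, (T - 2 * i) * h i

end

end Pool.Agent.N184.HP
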