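import Pool.Agent.N184.HP.Chain
import Pool.Agent.N184.WM.Outer

/-!
# Maximal monodromy implies purity
-/

set_option autoImplicit false
set_option linter.unusedSectionVars false
set_option linter.unusedVariables false

namespace Pool.Agent.N184.HP

universe u v

open Module Polynomial Pool.Agent.Y143 Pool.Agent.N184.WM

variable {Ω : Type u} [Field Ω] [CharZero Ω] {V : Type v} [AddCommGroup V] [Module Ω V]
  [FiniteDimensional Ω V] {q m : ℕ} {Φ N : Module.End Ω V} {B : V →ₗ[Ω] V →ₗ[Ω] Ω}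
  [IsAlgClosed Ω]

/-- The rank of `N ^ b` is as large as the weights permit. -/
def Tight (q m : ℕ) (Φ N : Module.End Ω V) (b : ℕ) : Prop :=
  (∀ x ∈ hi q Φ (m + b), (N ^ b) x = 0 → x = 0) ∧
    lo q Φ (m - b + 1) ≤ (lo q Φ (m + b + 1)).map (N ^ b)

lemma tight_of_rank (hq : 1 < q) (H : IsCohomology q m Φ N B) (b : ℕ)
    (h : rankPow N b = finrank Ω (lo q Φ (m - b + 1)) + finrank Ω (lo q Φ ((m : ℤ) - b))) :
    Tight q m Φ N b := by
  constructor
  · apply ((rank_bound hq H b (m + b)).2 _).1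
    rw [finrank_hi hq H, show 2 * (m : ℤ) - (m + b) + 1 = m - b + 1 by ring,
      show (m : ℤ) + b - 2 * b = m - b by ring]
    exact h
  · have h1 := ((rank_bound hq H b (m + b + 1)).2 (by
      rw [finrank_hi hq H, show 2 * (m : ℤ) - (m + b + 1) + 1 = m - b by ring,
        show (m : ℤ) + b + 1 - 2 * b = m - b + 1 by ring, add_comm]
      exact h)).2
    rwa [show (m : ℤ) + b + 1 - 2 * b = m - b + 1 by ring] at h1

lemma lo_eq_bot {c : ℤ} (hc : c ≤ 0) : lo q Φ c = ⊥ := by
  rw [eq_bot_iff]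
  apply eig_le
  intro α hα
  exact absurd (show (wf q α : ℤ) < c from hα) (by omega)

lemma rank_eq_zero (hq : 1 < q) (H : IsCohomology q m Φ N B) {b : ℕ} (hb : m < b) :
    rankPow N b = 0 := by
  have h1 := rank_le hq H b
  rw [lo_eq_bot (by omega), lo_eq_bot (by omega), finrank_bot] at h1
  omega

lemma tight_big (hq : 1 < q) (H : IsCohomology q m Φ N B) {b : ℕ} (hb : m < b) :
    Tight q m Φ N b := by
  apply tight_of_rank hq H
  rw [rank_eq_zero hq H hb, lo_eq_bot (by omega), lo_eq_bot (by omega), finrank_bot]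

lemma nilp (hq : 1 < q) (H : IsCohomology q m Φ N B) : ∃ r : ℕ, N ^ r = 0 := by
  refine ⟨m + 1, ?_⟩
  have h1 := rank_eq_zero hq H (show m < m + 1 by omega)
  unfold rankPow at h1
  rw [Submodule.finrank_eq_zero, LinearMap.range_eq_bot] at h1
  exact h1

/-- **The monodromy polygon lies above the Hodge polygon.** -/
theorem monodromy_le_hodge (hq : 1 < q) (H : IsCohomology q m Φ N B) (hP : HasRationalPoly Φ)
    {R : ValuationSubring Ω} {val : Ω → ℝ} (hv : IsValFor q R val) {h : ℕ → ℕ}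
    (hNH : NewtonAboveHodge val Φ h) (a : ℕ) :
    monodromySum N m a ≤ hodgeSum h (m - a) ∧
      (monodromySum N m a = hodgeSum h (m - a) →
        ∀ b : ℕ, a + 1 ≤ b → 2 ∣ b - (a + 1) → Tight q m Φ N b) := by
  rcases Nat.lt_or_ge m a with ha | ha
  · refine ⟨?_, fun _ b hb _ => tight_big hq H (by omega)⟩
    unfold monodromySum
    rw [Finset.sum_eq_zero fun j _ => rank_eq_zero hq H (by omega)]
    exact Nat.zero_le _
  · have h1 : ∀ j ∈ Finset.range m, rankPow N (a + 1 + 2 * j) ≤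
        finrank Ω (lo q Φ ((m : ℤ) - (a + 1 + 2 * j : ℕ) + 1)) +
          finrank Ω (lo q Φ ((m : ℤ) - (a + 1 + 2 * j : ℕ))) := fun j _ => rank_le hq H _
    have h2 : ((∑ j ∈ Finset.range m, (finrank Ω (lo q Φ ((m : ℤ) - (a + 1 + 2 * j : ℕ) + 1)) +
      finrank Ω (lo q Φ ((m : ℤ) - (a + 1 + 2 * j : ℕ)))) : ℕ) : ℝ) ≤ hodgeSum h (m - a) :=
      (monodromy_le_weight hq H a m ha).trans ((weight_le_newton hq H hP hv (m - a)).trans
        (newton_le_hodge hNH (m - a)))
    have h3 : ∑ j ∈ Finset.range m, (finrank Ω (lo q Φ ((m : ℤ) - (a + 1 + 2 * j : ℕ) + 1)) +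
      finrank Ω (lo q Φ ((m : ℤ) - (a + 1 + 2 * j : ℕ)))) ≤ hodgeSum h (m - a) := by
      exact_mod_cast h2
    have h4 := Finset.sum_le_sum h1
    refine ⟨h4.trans h3, fun heq b hb hb2 => ?_⟩
    rcases Nat.lt_or_ge m b with hmb | hmb
    · exact tight_big hq H hmb
    · have h5 : ∑ j ∈ Finset.range m, rankPow N (a + 1 + 2 * j) =
          ∑ j ∈ Finset.range m, (finrank Ω (lo q Φ ((m : ℤ) - (a + 1 + 2 * j : ℕ) + 1)) +
          finrank Ω (lo q Φ ((m : ℤ) - (a + 1 + 2 * j : ℕ)))) :=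
        le_antisymm h4 (h3.trans heq.ge)
      obtain ⟨j, hj⟩ := hb2
      have h6 := (Finset.sum_eq_sum_iff_of_le h1).1 h5 j (Finset.mem_range.2 (by omega))
      rw [show a + 1 + 2 * j = b by omega] at h6
      exact tight_of_rank hq H b h6

/-- The steps of the monodromy filtration. -/
lemma monFil_le_sup (hq : 1 < q) (H : IsCohomology q m Φ N B) {s : ℤ}
    (hT : ∀ b : ℕ, s.natAbs + 1 ≤ b → 2 ∣ (b : ℤ) - (s + 1) → Tight q m Φ N b) :
    monFil N s ≤ monFil N (s - 1) ⊔ eig Φ {α | IsWeilNumber q (m + s) α} := by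
  apply monFil_le
  intro j e y hj he hy
  have hK : LinearMap.ker (N ^ e) ≤
      (monFil N (s - 1) ⊔ eig Φ {α | IsWeilNumber q (m + s) α}).comap (N ^ j) := by
    have hst : ∀ x ∈ LinearMap.ker (N ^ e), Φ x ∈ LinearMap.ker (N ^ e) := by
      intro x hx
      rw [LinearMap.mem_ker] at hx ⊢
      have hpow : ∀ (t : ℕ) (v : V), (N ^ t) (Φ v) = (q : Ω) ^ t • Φ ((N ^ t) v) := by
        intro t
        induction t with
        | zero => intro v; simp
        | succ t ih =>
          intro v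
          rw [pow_succ' N t, Module.End.mul_apply, ih, map_smul, H.twisted, smul_smul, ← pow_succ,
            Module.End.mul_apply]
      rw [hpow, hx, map_zero, smul_zero]
    have h1 : LinearMap.ker (N ^ e) =
        ⨆ α, LinearMap.ker (N ^ e) ⊓ Φ.maxGenEigenspace α := by
      have h2 := Submodule.inf_iSup_genEigenspace (p := LinearMap.ker (N ^ e)) (f := Φ) hst ⊤
      rw [← h2]
      have h3 := Φ.iSup_maxGenEigenspace_eq_top
      unfold Module.End.maxGenEigenspace at h3
      rw [h3, inf_top_eq]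
    rw [h1]
    apply iSup_le
    rintro α y ⟨hyK, hyα⟩
    rw [Submodule.mem_comap]
    change (N ^ e) y = 0 at hyK
    by_cases hy0 : y = 0
    · rw [hy0, map_zero]; exact zero_mem _
    have hα := root_weil H (mem_roots_of_mem hyα hy0)
    have htight := hT e (by omega) (by omega)
    rcases lt_trichotomy (wf q α : ℤ) ((m : ℤ) + e - 1) with hu | hu | hu
    · -- small weight
      apply Submodule.mem_sup_left
      obtain ⟨e', rfl⟩ : ∃ e', e = e' + 1 := ⟨e - 1, by omega⟩
      have h2 : (N ^ e') y ∈ lo q Φ (m - (e' + 1 : ℕ) + 1) := by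
        have h3 := pow_lo hq H e' (c := (m : ℤ) + (e' + 1 : ℕ) - 1) (x := y)
          (le_eig (S := {α : Ω | (wf q α : ℤ) < (m : ℤ) + (e' + 1 : ℕ) - 1}) hu hyα)
        rwa [show (m : ℤ) + (e' + 1 : ℕ) - 1 - 2 * e' = m - (e' + 1 : ℕ) + 1 by
          push_cast; ring] at h3
      obtain ⟨z, -, hz⟩ := htight.2 h2
      have h3 : (N ^ e') (y - N z) = 0 := by
        rw [map_sub, ← Module.End.mul_apply (N ^ e') N, ← pow_succ, hz, sub_self]
      have h4 : (N ^ (e' + 2)) z = 0 := by
        rw [show e' + 2 = 1 + (e' + 1) by ring, pow_add, Module.End.mul_apply, hz, pow_one,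
          ← Module.End.mul_apply, ← pow_succ', hyK]
      have h5 : (N ^ j) y = (N ^ j) (y - N z) + (N ^ (j + 1)) z := by
        rw [map_sub, pow_succ N j, Module.End.mul_apply, sub_add_cancel]
      rw [h5]
      apply Submodule.add_mem
      · by_cases hj' : -(s - 1) ≤ (j : ℤ)
        · exact mem_monFil_of hj' (e := e') (by push_cast at he ⊢; omega) h3
        · rw [ker_eq_zero_of_le (show e' ≤ j by push_cast at he; omega) h3]
          exact zero_mem _
      · exact mem_monFil_of (by push_cast; omega) (e := e' + 2) (by push_cast at he ⊢; omega) h4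
    · -- the expected weight
      apply Submodule.mem_sup_right
      have h2 := N_pow_gen hq H.twisted hyα j
      refine le_eig ?_ h2
      have h3 := weil_div hq hα j
      rwa [show (wf q α : ℤ) - 2 * j = m + s by omega] at h3
    · -- large weight
      have h2 : y = 0 := htight.1 y (le_eig (S := {α : Ω | (m : ℤ) + e ≤ (wf q α : ℤ)})
        (show (m : ℤ) + e ≤ (wf q α : ℤ) by omega) hyα) hyK
      exact absurd h2 hy0
  exact hK hy

/-- **Purity.** -/
theorem pure_of_tight (hq : 1 < q) (H : IsCohomology q m Φ N B) {s : ℤ}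
    (hT : ∀ b : ℕ, s.natAbs + 1 ≤ b → 2 ∣ (b : ℤ) - (s + 1) → Tight q m Φ N b) :
    IsPureAt q m Φ N s := by
  intro M hM
  have hqΩ : (q : Ω) ≠ 0 := Nat.cast_ne_zero.2 (by omega)
  have hΦM : ∀ (s : ℤ), ∀ x ∈ M s, Φ x ∈ M s := by
    intro s x hx
    exact IsMonodromyFiltrationOn.functorial hM.on hM.on Φ (fun _ _ => trivial) (c := (q : Ω))
      hqΩ (fun x _ => H.twisted x) s hx
  refine ⟨hΦM s, ?_⟩
  intro α x hx hx' hα
  have h1 : ∀ s, M s = monFil N s := fun s => IsOuter.mon_eq hM (nilp hq H) s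
  have h2 := monFil_le_sup hq H hT (by rw [← h1]; exact hx)
  rw [← h1] at h2
  obtain ⟨b, hb, v, hv, rfl⟩ := Submodule.mem_sup.1 h2
  have h3 : v ∉ M (s - 1) := fun hc => hx' (Submodule.add_mem _ hb hc)
  have h4 : Φ v - α • v ∈ M (s - 1) := by
    have h5 : Φ v - α • v = (Φ (b + v) - α • (b + v)) - (Φ b - α • b) := by
      rw [map_add, smul_add]; abel
    rw [h5]
    exact Submodule.sub_mem _ hα (Submodule.sub_mem _ (hΦM _ _ hb) (Submodule.smul_mem _ _ hb))
  exact eigen_of_eig hv (hΦM (s - 1)) h3 h4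

/-- Equality in the inequality between monodromy and Hodge numbers implies purity. -/
theorem pure_of_eq (hq : 1 < q) (H : IsCohomology q m Φ N B) (hP : HasRationalPoly Φ)
    {R : ValuationSubring Ω} {val : Ω → ℝ} (hv : IsValFor q R val) {h : ℕ → ℕ}
    (hNH : NewtonAboveHodge val Φ h) {a : ℕ} (heq : monodromySum N m a = hodgeSum h (m - a))
    {s : ℤ} (hs : (a : ℤ) ≤ |s|) (hs2 : 2 ∣ s - a) : IsPureAt q m Φ N s := by
  apply pure_of_tight hq H
  intro b hb hb2
  rw [Int.abs_eq_natAbs] at hs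
  refine (monodromy_le_hodge hq H hP hv hNH a).2 heq b (by omega) ?_
  omega

/-- **The weight-monodromy conjecture for maximal monodromy.** -/
theorem mwPure_of_eq (hq : 1 < q) (H : IsCohomology q m Φ N B) (hP : HasRationalPoly Φ)
    {R : ValuationSubring Ω} {val : Ω → ℝ} (hv : IsValFor q R val) {h : ℕ → ℕ}
    (hNH : NewtonAboveHodge val Φ h)
    (h0 : monodromySum N m 0 = hodgeSum h m ∨ NoPiece N 0)
    (h1 : monodromySum N m 1 = hodgeSum h (m - 1) ∨ NoPiece N 1) : IsMWPure q m Φ N := by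
  have hM := isMonodromyFiltration_monFil (nilp hq H)
  have hno : ∀ (a : ℕ) (s : ℤ), NoPiece N a → 2 ∣ s - a → IsPureAt q m Φ N s := by
    intro a s ha hs M hM
    have hqΩ : (q : Ω) ≠ 0 := Nat.cast_ne_zero.2 (by omega)
    refine ⟨fun x hx => IsMonodromyFiltrationOn.functorial hM.on hM.on Φ (fun _ _ => trivial)
      (c := (q : Ω)) hqΩ (fun x _ => H.twisted x) s hx, fun α x hx hx' _ => ?_⟩
    exact absurd (ha M hM s hs hx) hx'
  have key : ∀ s : ℤ, IsPureAt q m Φ N s := by
    intro s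
    rcases Int.even_or_odd s with ⟨r, hr⟩ | ⟨r, hr⟩
    · have hs : (2 : ℤ) ∣ s - (0 : ℕ) := ⟨r, by push_cast; omega⟩
      rcases h0 with h0 | h0
      · exact pure_of_eq hq H hP hv hNH (a := 0) h0 (by simp) hs
      · exact hno 0 s h0 hs
    · have hs : (2 : ℤ) ∣ s - (1 : ℕ) := ⟨r, by push_cast; omega⟩
      rcases h1 with h1 | h1
      · refine pure_of_eq hq H hP hv hNH (a := 1) h1 ?_ hs
        have : s ≠ 0 := by omega
        push_cast
        exact Int.one_le_abs this
      · exact hno 1 s h1 hs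
  refine ⟨monFil N, hM, fun a x hx => (key a _ hM).1 x hx, fun a α x hx hx' hα => ?_⟩
  have := (key a _ hM).2 α x hx hx' hα
  rwa [add_comm] at this

end Pool.Agent.N184.HP
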