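import Pool.Agent.N184.HP.Eig
import Pool.Agent.N184.HP.Weil
import Pool.Agent.N184.HP.Defs

/-!
# The weight spaces
-/

set_option autoImplicit false
set_option linter.unusedSectionVars false
set_option linter.unusedVariables false
set_option linter.unusedSimpArgs false

namespace Pool.Agent.N184.HP

universe u v

open Module Polynomial Pool.Agent.Y143 Pool.Agent.N184.WM

variable {Ω : Type u} [Field Ω] [CharZero Ω] {V : Type v} [AddCommGroup V] [Module Ω V]

open Classical in
/-- The weight of a Weil number. -/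
noncomputable def wf (q : ℕ) (α : Ω) : ℕ :=
  if h : ∃ w : ℕ, IsWeilNumber q w α then h.choose else 0

lemma wf_spec {q : ℕ} {α : Ω} (h : ∃ w : ℕ, IsWeilNumber q w α) : IsWeilNumber q (wf q α) α := by
  unfold wf
  rw [dif_pos h]
  exact h.choose_spec

lemma wf_eq {q : ℕ} (hq : 1 < q) {α : Ω} {w : ℤ} (hw : 0 ≤ w) (h : IsWeilNumber q w α) :
    (wf q α : ℤ) = w := by
  obtain ⟨w', rfl⟩ := Int.eq_ofNat_of_zero_le hw
  exact weight_unique hq (wf_spec ⟨w', h⟩) h

/-- The sum of the generalized eigenspaces of weight less than `c`. -/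
def lo (q : ℕ) (Φ : Module.End Ω V) (c : ℤ) : Submodule Ω V := eig Φ {α | (wf q α : ℤ) < c}

/-- The sum of the generalized eigenspaces of weight at least `c`. -/
def hi (q : ℕ) (Φ : Module.End Ω V) (c : ℤ) : Submodule Ω V := eig Φ {α | c ≤ (wf q α : ℤ)}

section

variable {q m : ℕ} {Φ N : Module.End Ω V} {B : V →ₗ[Ω] V →ₗ[Ω] Ω}

lemma N_gen (hq : 1 < q) (hN : IsTwisted q Φ N) {α : Ω} {x : V} (hx : x ∈ Φ.maxGenEigenspace α) :
    N x ∈ Φ.maxGenEigenspace (α / q) := by
  have hqΩ : (q : Ω) ≠ 0 := Nat.cast_ne_zero.2 (by omega)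
  have key : ∀ (k : ℕ) (x : V), N (((Φ - α • 1) ^ k) x) =
      (q : Ω) ^ k • ((Φ - (α / q) • 1) ^ k) (N x) := by
    intro k
    induction k with
    | zero => intro x; simp
    | succ k ih =>
      intro x
      rw [pow_succ, Module.End.mul_apply, ih, pow_succ (q : Ω), mul_smul,
        pow_succ (Φ - (α / q) • 1), Module.End.mul_apply]
      congr 1
      rw [← map_smul]
      congr 1
      simp only [LinearMap.sub_apply, LinearMap.smul_apply, Module.End.one_apply, map_sub, map_smul]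
      rw [hN, smul_sub, smul_smul, mul_div_cancel₀ _ hqΩ]
  rw [Module.End.mem_maxGenEigenspace] at hx ⊢
  obtain ⟨k, hk⟩ := hx
  refine ⟨k, ?_⟩
  have h1 := key k x
  rw [hk, map_zero] at h1
  exact (smul_eq_zero.1 h1.symm).resolve_left (pow_ne_zero k hqΩ)

lemma N_pow_gen (hq : 1 < q) (hN : IsTwisted q Φ N) {α : Ω} {x : V}
    (hx : x ∈ Φ.maxGenEigenspace α) (b : ℕ) : (N ^ b) x ∈ Φ.maxGenEigenspace (α / q ^ b) := by
  induction b with
  | zero => simpa using hx
  | succ b ih =>
    rw [pow_succ' N b, Module.End.mul_apply]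
    have := N_gen hq hN ih
    rwa [div_div, ← pow_succ] at this

lemma weil_div (hq : 1 < q) {w : ℤ} {α : Ω} (h : IsWeilNumber q w α) (b : ℕ) :
    IsWeilNumber q (w - 2 * b) (α / q ^ b) := by
  have h1 := h.twist (by omega : q ≠ 0) (-(b : ℤ))
  rw [zpow_neg, zpow_natCast, show w + 2 * -(b : ℤ) = w - 2 * b by ring] at h1
  rwa [div_eq_inv_mul]

variable [IsAlgClosed Ω] [FiniteDimensional Ω V]

omit [CharZero Ω] in
lemma exists_eigenvector {α : Ω} (h : α ∈ Φ.charpoly.roots) : ∃ x : V, x ≠ 0 ∧ Φ x = α • x := by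
  have h3 : Φ.charpoly.IsRoot α := (mem_roots (LinearMap.charpoly_monic Φ).ne_zero).1 h
  have h4 : Φ.HasEigenvalue α := by
    rw [Module.End.hasEigenvalue_iff_isRoot_charpoly]
    exact h3
  obtain ⟨x, hx⟩ := h4.exists_hasEigenvector
  exact ⟨x, hx.2, hx.apply_eq_smul⟩

lemma root_weil (H : IsCohomology q m Φ N B) {α : Ω} (h : α ∈ Φ.charpoly.roots) :
    IsWeilNumber q (wf q α) α := by
  obtain ⟨x, hx, hx'⟩ := exists_eigenvector h
  exact wf_spec (H.weil α x hx hx')

/-- `N ^ b` lowers the weights by `2 b`. -/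
lemma pow_mem (hq : 1 < q) (H : IsCohomology q m Φ N B) (b : ℕ) {S S' : Set ℤ}
    (hS : ∀ w ∈ S, w - 2 * b ∈ S') {x : V} (hx : x ∈ eig Φ {α | (wf q α : ℤ) ∈ S}) :
    (N ^ b) x ∈ eig Φ {α | (wf q α : ℤ) ∈ S'} := by
  have h1 : eig Φ {α | (wf q α : ℤ) ∈ S} ≤
      (eig Φ {α | (wf q α : ℤ) ∈ S'}).comap (N ^ b) := by
    apply eig_le
    intro α hα x hx
    rw [Submodule.mem_comap]
    by_cases h0 : (N ^ b) x = 0
    · rw [h0]; exact zero_mem _
    have hx0 : x ≠ 0 := by rintro rfl; exact h0 (map_zero _)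
    have h2 := N_pow_gen hq H.twisted hx b
    have h3 := root_weil H (mem_roots_of_mem hx hx0)
    have h4 := root_weil H (mem_roots_of_mem h2 h0)
    refine le_eig ?_ h2
    have h5 := weight_unique hq h4 (weil_div hq h3 b)
    show ((wf q (α / (q : Ω) ^ b) : ℕ) : ℤ) ∈ S'
    rw [h5]
    exact hS _ hα
  exact h1 hx

lemma pow_lo (hq : 1 < q) (H : IsCohomology q m Φ N B) (b : ℕ) {c : ℤ} {x : V}
    (hx : x ∈ lo q Φ c) : (N ^ b) x ∈ lo q Φ (c - 2 * b) :=
  pow_mem hq H b (S := {w | w < c}) (S' := {w | w < c - 2 * b})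
    (fun w hw => by simp only [Set.mem_ofPred_eq] at hw ⊢; omega) hx

lemma lo_sup_hi (c : ℤ) : lo q Φ c ⊔ hi q Φ c = ⊤ := by
  unfold lo hi
  rw [eig_sup, ← eig_univ Φ]
  congr 1
  ext α
  simp only [Set.mem_union, Set.mem_ofPred_eq, Set.mem_univ, iff_true]
  exact lt_or_ge _ _

/-- The form pairs generalized eigenspaces. -/
lemma pair_gen (hq : 1 < q) (H : IsCohomology q m Φ N B) {α β : Ω} {x y : V}
    (hx : x ∈ Φ.maxGenEigenspace α) (hy : y ∈ Φ.maxGenEigenspace β) (hαβ : α * β ≠ (q : Ω) ^ m) :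
    B x y = 0 := by
  rw [Module.End.mem_maxGenEigenspace] at hx hy
  obtain ⟨k, hk⟩ := hx
  obtain ⟨l, hl⟩ := hy
  have key : ∀ (n k l : ℕ) (x y : V), k + l ≤ n → ((Φ - α • 1) ^ k) x = 0 →
      ((Φ - β • 1) ^ l) y = 0 → B x y = 0 := by
    intro n
    induction n with
    | zero =>
      intro k l x y hkl hx _
      have : k = 0 := by omega
      subst this
      rw [pow_zero, Module.End.one_apply] at hx
      rw [hx, map_zero, LinearMap.zero_apply]
    | succ n ih =>
      intro k l x y hkl hx hy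
      cases k with
      | zero =>
        rw [pow_zero, Module.End.one_apply] at hx
        rw [hx, map_zero, LinearMap.zero_apply]
      | succ k =>
        cases l with
        | zero =>
          rw [pow_zero, Module.End.one_apply] at hy
          rw [hy, map_zero]
        | succ l =>
          have e1 : Φ x = α • x + (Φ - α • 1) x := by
            simp
          have e2 : Φ y = β • y + (Φ - β • 1) y := by
            simp
          have hx' : ((Φ - α • 1) ^ k) ((Φ - α • 1) x) = 0 := by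
            rw [← Module.End.mul_apply, ← pow_succ]; exact hx
          have hy' : ((Φ - β • 1) ^ l) ((Φ - β • 1) y) = 0 := by
            rw [← Module.End.mul_apply, ← pow_succ]; exact hy
          have h1 := H.pair x y
          have i1 := ih k (l + 1) _ y (by omega) hx' hy
          have i2 := ih (k + 1) l x _ (by omega) hx hy'
          have i3 := ih k l _ _ (by omega) hx' hy'
          rw [e1, e2] at h1
          simp only [map_add, LinearMap.add_apply, map_smul, LinearMap.smul_apply, smul_eq_mul] at h1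
          rw [i1, i2, i3] at h1
          simp only [mul_zero, add_zero, zero_add] at h1
          have h2 : (α * β - (q : Ω) ^ m) * B x y = 0 := by
            rw [sub_mul, ← h1]; ring
          exact (mul_eq_zero.1 h2).resolve_left (sub_ne_zero.2 hαβ)
  exact key _ k l x y le_rfl hk hl

/-- Duality. -/
lemma finrank_dual (hq : 1 < q) (H : IsCohomology q m Φ N B) {S S' : Set ℤ}
    (hS : ∀ w ∈ S, 2 * (m : ℤ) - w ∈ S') :
    finrank Ω (eig Φ {α | (wf q α : ℤ) ∈ S}) ≤ finrank Ω (eig Φ {α | (wf q α : ℤ) ∈ S'}) := by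
  have hqΩ : (q : Ω) ≠ 0 := Nat.cast_ne_zero.2 (by omega)
  let f : eig Φ {α | (wf q α : ℤ) ∈ S} →ₗ[Ω] Dual Ω (eig Φ {α | (wf q α : ℤ) ∈ S'}) :=
    ((Submodule.subtype _).dualMap ∘ₗ B) ∘ₗ Submodule.subtype _
  have hf : Function.Injective f := by
    rw [← LinearMap.ker_eq_bot, LinearMap.ker_eq_bot']
    rintro ⟨x, hx⟩ hfx
    have h1 : ∀ y ∈ eig Φ {α | (wf q α : ℤ) ∈ S'}, B x y = 0 := fun y hy =>
      LinearMap.congr_fun hfx ⟨y, hy⟩
    have h2 : eig Φ {α | (wf q α : ℤ) ∈ S'}ᶜ ≤ LinearMap.ker (B x) := by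
      apply eig_le
      intro β hβ y hy
      rw [LinearMap.mem_ker]
      by_cases hy0 : y = 0
      · rw [hy0, map_zero]
      have h3 : eig Φ {α | (wf q α : ℤ) ∈ S} ≤ LinearMap.ker (B.flip y) := by
        apply eig_le
        intro α hα z hz
        rw [LinearMap.mem_ker, LinearMap.flip_apply]
        by_cases hz0 : z = 0
        · rw [hz0, map_zero, LinearMap.zero_apply]
        apply pair_gen hq H hz hy
        intro hαβ
        apply hβ
        have h4 := root_weil H (mem_roots_of_mem hz hz0)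
        have h5 := root_weil H (mem_roots_of_mem hy hy0)
        have h6 : β = (q : Ω) ^ m * α⁻¹ := by
          rw [← hαβ, mul_comm α β, mul_assoc, mul_inv_cancel₀ (weil_ne_zero' hq h4), mul_one]
        have h7 := h4.inv.twist (by omega : q ≠ 0) (m : ℤ)
        rw [zpow_natCast, ← h6] at h7
        have h8 := weight_unique hq h5 h7
        show ((wf q β : ℕ) : ℤ) ∈ S'
        rw [h8, show -((wf q α : ℕ) : ℤ) + 2 * (m : ℤ) = 2 * m - wf q α by ring]
        exact hS _ hα
      exact h3 hx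
    have h3 : x = 0 := by
      apply H.nondeg
      intro y
      have h4 : y ∈ eig Φ {α | (wf q α : ℤ) ∈ S'} ⊔ eig Φ {α | (wf q α : ℤ) ∈ S'}ᶜ := by
        rw [eig_sup, Set.union_compl_self, eig_univ]
        trivial
      obtain ⟨y1, hy1, y2, hy2, rfl⟩ := Submodule.mem_sup.1 h4
      rw [map_add, h1 _ hy1, h2 hy2, add_zero]
    exact Subtype.ext h3
  have h1 := LinearMap.finrank_le_finrank_of_injective hf
  rwa [Subspace.dual_finrank_eq] at h1

lemma finrank_hi (hq : 1 < q) (H : IsCohomology q m Φ N B) (c : ℤ) :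
    finrank Ω (hi q Φ c) = finrank Ω (lo q Φ (2 * m - c + 1)) := by
  apply le_antisymm
  · exact finrank_dual hq H (S := {w | c ≤ w}) (S' := {w | w < 2 * m - c + 1})
      (fun w hw => by simp only [Set.mem_ofPred_eq] at hw ⊢; omega)
  · exact finrank_dual hq H (S := {w | w < 2 * m - c + 1}) (S' := {w | c ≤ w})
      (fun w hw => by simp only [Set.mem_ofPred_eq] at hw ⊢; omega)

/-- The bound for the rank of `N ^ b`, and the case of equality. -/
lemma rank_bound (hq : 1 < q) (H : IsCohomology q m Φ N B) (b : ℕ) (c : ℤ) :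
    rankPow N b ≤ finrank Ω (hi q Φ c) + finrank Ω (lo q Φ (c - 2 * b)) ∧
      (rankPow N b = finrank Ω (hi q Φ c) + finrank Ω (lo q Φ (c - 2 * b)) →
        (∀ x ∈ hi q Φ c, (N ^ b) x = 0 → x = 0) ∧
          lo q Φ (c - 2 * b) ≤ (lo q Φ c).map (N ^ b)) := by
  have h1 : LinearMap.range (N ^ b) = (hi q Φ c).map (N ^ b) ⊔ (lo q Φ c).map (N ^ b) := by
    rw [← Submodule.map_sup, sup_comm, lo_sup_hi, Submodule.map_top]
  have h2 : (lo q Φ c).map (N ^ b) ≤ lo q Φ (c - 2 * b) := by
    rintro _ ⟨x, hx, rfl⟩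
    exact pow_lo hq H b hx
  have h3 := Submodule.finrank_mono h2
  have h4 : finrank Ω ((hi q Φ c).map (N ^ b)) ≤ finrank Ω (hi q Φ c) :=
    Submodule.finrank_map_le _ _
  have h5 : rankPow N b ≤ finrank Ω ((hi q Φ c).map (N ^ b)) +
      finrank Ω ((lo q Φ c).map (N ^ b)) := by
    unfold rankPow
    rw [h1]
    exact Submodule.finrank_add_le_finrank_add_finrank _ _
  refine ⟨by omega, fun heq => ⟨?_, ?_⟩⟩
  · intro x hx hx0
    have h6 : finrank Ω ((hi q Φ c).map (N ^ b)) = finrank Ω (hi q Φ c) := by omega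
    have h7 : LinearMap.ker ((N ^ b).domRestrict (hi q Φ c)) = ⊥ := by
      have h8 := LinearMap.finrank_range_add_finrank_ker ((N ^ b).domRestrict (hi q Φ c))
      have h9 : LinearMap.range ((N ^ b).domRestrict (hi q Φ c)) = (hi q Φ c).map (N ^ b) := by
        rw [LinearMap.range_domRestrict]
      rw [h9, h6] at h8
      rw [← Submodule.finrank_eq_zero (R := Ω)]
      omega
    have h8 : (⟨x, hx⟩ : hi q Φ c) ∈ LinearMap.ker ((N ^ b).domRestrict (hi q Φ c)) := by
      rw [LinearMap.mem_ker]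
      exact hx0
    rw [h7, Submodule.mem_bot] at h8
    exact congrArg Subtype.val h8
  · have h6 : finrank Ω ((lo q Φ c).map (N ^ b)) = finrank Ω (lo q Φ (c - 2 * b)) := by omega
    exact (Submodule.eq_of_le_of_finrank_eq h2 h6).ge

end

end Pool.Agent.N184.HP
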